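import Pool.Agent.Q262.Ht.BigMain
import Pool.Agent.Q262.CycFinal

/-!
MP_72c16c_nt, Question 1 (negative answer).

For `p = 19`, `q = 149` the divisor `Φ_p Φ_q Φ_{p²q} Φ_{pq²} Φ_{p²q²}` of `X^(p²q²) - 1` has height
at least `835`, while `Φ_p Φ_q Φ_{p²q} Φ_{pq²}` has height at most `834` and
`Φ_p Φ_q Φ_{p²} Φ_{q²}` has height at most `361`.
-/

set_option autoImplicit false

open Polynomial

namespace Pool.Agent.Results.MP_72c16c_nt.NotTheMaximum

open Q262.Hgt

/-- The formula `B(p²q²) = max (H(Φ_p Φ_q Φ_{p²q} Φ_{pq²})) (H(Φ_p Φ_q Φ_{p²} Φ_{q²}))` fails for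
some primes `p < q`: explicitly, for `p = 19` and `q = 149` there is a divisor of `X^(p²q²) - 1`
whose height is larger than both heights on the right-hand side. -/
theorem result :
    (¬ ∀ p q : ℕ, p.Prime → q.Prime → p < q →
      maxDivisorHeight (p ^ 2 * q ^ 2) =
        max (height (cyclotomic p ℤ * cyclotomic q ℤ * cyclotomic (p ^ 2 * q) ℤ *
              cyclotomic (p * q ^ 2) ℤ))
            (height (cyclotomic p ℤ * cyclotomic q ℤ * cyclotomic (p ^ 2) ℤ *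
              cyclotomic (q ^ 2) ℤ))) ∧
    ∃ f : ℤ[X], f ∣ X ^ (19 ^ 2 * 149 ^ 2) - 1 ∧ 835 ≤ height f ∧
      height (cyclotomic 19 ℤ * cyclotomic 149 ℤ * cyclotomic (19 ^ 2 * 149) ℤ *
        cyclotomic (19 * 149 ^ 2) ℤ) ≤ 834 ∧
      height (cyclotomic 19 ℤ * cyclotomic 149 ℤ * cyclotomic (19 ^ 2) ℤ *
        cyclotomic (149 ^ 2) ℤ) ≤ 361 := by
  refine ⟨fun h => ?_, Q262.Kron.polF, Q262.Kron.polF_dvd, Q262.Kron.height_polF,
    Q262.Kron.height_polA, Q262.Kron.height_candB⟩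
  have h1 := h 19 149 (by norm_num) (by norm_num) (by norm_num)
  have h2 := (isGreatest_maxDivisorHeight (19 ^ 2 * 149 ^ 2) (by norm_num)).2
    ⟨Q262.Kron.polF, Q262.Kron.polF_dvd, rfl⟩
  rw [h1] at h2
  have h3 := Q262.Kron.height_polF
  have h4 : height (cyclotomic 19 ℤ * cyclotomic 149 ℤ * cyclotomic (19 ^ 2 * 149) ℤ *
        cyclotomic (19 * 149 ^ 2) ℤ) ≤ 834 := Q262.Kron.height_polA
  have h5 := Q262.Kron.height_candB
  have h6 := h3.trans h2
  rcases le_max_iff.mp h6 with h7 | h7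
  · exact absurd (h7.trans h4) (by norm_num)
  · exact absurd (h7.trans h5) (by norm_num)

end Pool.Agent.Results.MP_72c16c_nt.NotTheMaximum
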